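import Pool.Agent.GT.StmtsB

/-!
# Squad GT, row B_SLF: the strong linear forms condition
-/

namespace Pool.Agent.GT.H45

open Finset

theorem main (stp : StpStmt) (exp : ExpStmt) (K : ℕ) (n : ℕ) : ∀ η : ℝ, 0 < η → ∃ ε : ℝ, 0 < ε ∧
    ε ≤ 1 ∧ ∀ (X : Type) [Fintype X] [Nonempty X] (μ : Fin K → (Fin K → X) → ℝ) (a : Fin K)
    (p P : Fin K → Bool → (Fin K → X) → ℝ) (J : Finset (Fin K)),
    (∀ i, Ind i (μ i)) → HLF μ ε →
    (∀ i b, P i b = μ i ∨ P i b = fun _ => 1) →
    (∀ i b, Ind i (p i b)) → (∀ i b x, |p i b x| ≤ P i b x) →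
    J ⊆ univ.erase a → ((univ.erase a) \ J).card = n →
    |EJ a (fun x => μ a x - 1) p P J| ≤ η := by
  induction n with
  | zero =>
    intro η hη
    have h2 : (0 : ℝ) < 2 ^ (2 ^ K) := by positivity
    refine ⟨min 1 (η / 2 ^ (2 ^ K)), lt_min one_pos (div_pos hη h2), min_le_left _ _, ?_⟩
    intro X _ _ μ a p P J _ hL hP _ _ hJ hn
    have hJ2 : J = univ.erase a := by
      apply Finset.Subset.antisymm hJ
      rw [← Finset.sdiff_eq_empty_iff_subset]
      exact Finset.card_eq_zero.1 hn
    subst hJ2
    refine (exp K X _ μ a p P hL hP).trans ?_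
    calc 2 ^ (2 ^ K) * min 1 (η / 2 ^ (2 ^ K)) ≤ 2 ^ (2 ^ K) * (η / 2 ^ (2 ^ K)) :=
          mul_le_mul_of_nonneg_left (min_le_right _ _) h2.le
      _ = η := by field_simp
  | succ n ih =>
    intro η hη
    obtain ⟨ε, hε, hε1, h⟩ := ih (η ^ 2 / 2) (by positivity)
    refine ⟨ε, hε, hε1, ?_⟩
    intro X _ _ μ a p P J hI hL hP hp hpP hJ hn
    obtain ⟨j, hj⟩ : ((univ.erase a) \ J).Nonempty := by
      rw [← Finset.card_pos]
      omega
    rw [Finset.mem_sdiff, Finset.mem_erase] at hj
    obtain ⟨⟨hja, -⟩, hjJ⟩ := hj
    have haJ : a ∉ J := fun h' => Finset.notMem_erase a _ (hJ h')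
    have h1 := stp K X ε μ a (fun x => μ a x - 1) p P J j hI hL hP hp hpP hja hjJ haJ
    have hJ' : insert j J ⊆ univ.erase a := by
      apply Finset.insert_subset _ hJ
      rw [Finset.mem_erase]
      exact ⟨hja, mem_univ _⟩
    have hn' : ((univ.erase a) \ insert j J).card = n := by
      rw [Finset.sdiff_insert, Finset.card_erase_of_mem, hn]
      · rfl
      · rw [Finset.mem_sdiff, Finset.mem_erase]
        exact ⟨⟨hja, mem_univ _⟩, hjJ⟩
    have h2 := h X μ a p P (insert j J) hI hL hP hp hpP hJ' hn'
    have h3 : (1 + ε) * EJ a (fun x => μ a x - 1) p P (insert j J) ≤ η ^ 2 := by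
      have h4 := (abs_le.1 h2).2
      calc (1 + ε) * EJ a (fun x => μ a x - 1) p P (insert j J)
          ≤ (1 + ε) * (η ^ 2 / 2) := mul_le_mul_of_nonneg_left h4 (by linarith)
        _ ≤ 2 * (η ^ 2 / 2) := by
            apply mul_le_mul_of_nonneg_right _ (by positivity)
            linarith
        _ = η ^ 2 := by ring
    have h5 : EJ a (fun x => μ a x - 1) p P J ^ 2 ≤ η ^ 2 := h1.trans h3
    exact abs_le_of_sq_le_sq h5 hη.le

theorem cube_empty {K : ℕ} : cube (∅ : Finset (Fin K)) = {fun _ => false} := by
  ext ω
  rw [mem_cube, Finset.mem_singleton]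
  constructor
  · intro h
    funext i
    by_contra hi
    have := h i (by simpa using hi)
    simp at this
  · rintro rfl i hi
    simp at hi

theorem cube_single {K : ℕ} (a : Fin K) : cube (insert a ∅ : Finset (Fin K)) =
    {fun _ => false, Function.update (fun _ => false) a true} := by
  ext ω
  rw [mem_cube, Finset.mem_insert, Finset.mem_singleton]
  constructor
  · intro h
    by_cases ha : ω a = true
    · right
      funext i
      by_cases hi : i = a
      · subst hi
        rw [Function.update_self, ha]
      · rw [Function.update_of_ne hi]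
        by_contra hcon
        have := h i (by simpa using hcon)
        simp [hi] at this
    · left
      funext i
      by_contra hcon
      have hi : ω i = true := by simpa using hcon
      have := h i hi
      simp only [Finset.insert_empty, Finset.mem_singleton] at this
      subst this
      exact ha hi
  · rintro (rfl | rfl) i hi
    · simp at hi
    · by_cases hia : i = a
      · simp [hia]
      · rw [Function.update_of_ne hia] at hi
        simp at hi

theorem mix_single {K : ℕ} {X : Type} (x y : Fin K → X) (a : Fin K) :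
    mix (Function.update (fun _ => false) a true) x y = Function.update x a (y a) := by
  funext i
  unfold mix
  by_cases hi : i = a
  · subst hi; simp
  · simp [Function.update_of_ne hi]

theorem b_slf (stp : StpStmt) (exp : ExpStmt) : SlfStmt := by
  intro K η hη
  obtain ⟨ε, hε, -, h⟩ := main stp exp K (K - 1) η hη
  refine ⟨ε, hε, ?_⟩
  intro X _ _ μ a p P hI hL hP hp hpP
  have hcard : ((univ.erase a) \ (∅ : Finset (Fin K))).card = K - 1 := by
    rw [Finset.sdiff_empty, Finset.card_erase_of_mem (mem_univ a), Finset.card_univ,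
      Fintype.card_fin]
  have h1 := h X μ a p P ∅ hI hL hP hp hpP (Finset.empty_subset _) hcard
  have e : EJ a (fun x => μ a x - 1) p P ∅ =
      av (fun z : (Fin K → X) × (Fin K → X) => (μ a z.1 - 1) *
        ∏ j ∈ univ.erase a, (p j false z.1 * p j true (Function.update z.1 a (z.2 a)))) := by
    unfold EJ
    congr 1
    funext z
    rw [cube_empty, cube_single, Finset.prod_singleton, Finset.prod_empty, mul_one,
      Finset.sdiff_empty, mix_false]
    congr 1
    apply Finset.prod_congr rfl
    intro j _
    rw [Finset.prod_pair, mix_false, mix_single, Function.update_self]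
    intro hcon
    have := congrFun hcon a
    rw [Function.update_self] at this
    simp at this
  rw [← e]
  exact h1

end Pool.Agent.GT.H45
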